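import Pool.Agent.H77.ST.SEM

/-!
MP_238570_lc, question Q1: is there a set-generic extension of the constructible universe in which
the boldface Sigma-1-3-separation property holds and the continuum hypothesis fails? The answer is
yes: every countable model of ZFC and the axiom of constructibility has such an extension. The
continuum of the extension can be made as large as desired.
-/

namespace Pool.Agent.Results.MP_238570_lc.SeparationNotCH

open ST ST.SE

theorem result (M : Type) (D : M → M → Prop) (hM : Countable M) (hD : ZFC D)
    (hL : AxiomOfConstructibility D) (K : M) :
    ∃ (N : Type) (E : N → N → Prop) (i : M → N), ZFC E ∧ IsGenExt D E i ∧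
      Sigma13Separation E ∧ ¬ ContinuumHypothesis E ∧ ContinuumAtLeast E (i K) :=
  main M D hM hD hL K

end Pool.Agent.Results.MP_238570_lc.SeparationNotCH
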